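import Mathlib

set_option autoImplicit false

namespace Pool.Agent.Helper38.WM

/-- The weak minimum condition for subgroups. -/
def WeakMin (G : Type*) [Group G] : Prop :=
  ∀ H : ℕ → Subgroup G, Antitone H →
    ∃ n : ℕ, ∀ m : ℕ, n ≤ m → ((H (m + 1)).subgroupOf (H m)).index ≠ 0

/-- The weak minimum condition passes to subgroups. -/
theorem WeakMin.subgroup {G : Type*} [Group G] (hG : WeakMin G) (L : Subgroup G) : WeakMin L := by
  intro H hH
  obtain ⟨n, hn⟩ := hG (fun i => (H i).map L.subtype) (fun i j hij => Subgroup.map_mono (hH hij))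
  refine ⟨n, fun m hm => ?_⟩
  have h := hn m hm
  have e : ((H (m + 1)).map L.subtype).relIndex ((H m).map L.subtype) =
      (H (m + 1)).relIndex (H m) :=
    Subgroup.relIndex_map_map_of_injective _ _ (Subgroup.subtype_injective L)
  have h' : ((H (m + 1)).map L.subtype).relIndex ((H m).map L.subtype) ≠ 0 := h
  rw [e] at h'
  exact h'

/-- The weak minimum condition passes to quotients. -/
theorem WeakMin.quotient {G S : Type*} [Group G] [Group S] (hG : WeakMin G) (f : G →* S)
    (hf : Function.Surjective f) : WeakMin S := by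
  intro H hH
  obtain ⟨n, hn⟩ := hG (fun i => (H i).comap f) (fun i j hij => Subgroup.comap_mono (hH hij))
  refine ⟨n, fun m hm => ?_⟩
  have h : ((H (m + 1)).comap f).relIndex ((H m).comap f) ≠ 0 := hn m hm
  rw [Subgroup.relIndex_comap, Subgroup.map_comap_eq_self_of_surjective hf] at h
  exact h

/-- An infinite independent sequence destroys the weak minimum condition. -/
theorem not_weakMin_of_indep {S : Type*} [Group S] (h : ℕ → S)
    (hind : ∀ i, h i ∉ Subgroup.closure (h '' {j | j ≠ i})) : ¬ WeakMin S := by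
  intro hw
  let I : ℕ → Set ℕ := fun n => {i | 2 ^ n ∣ i}
  let H : ℕ → Subgroup S := fun n => Subgroup.closure (h '' I n)
  have hmono : Antitone H := by
    intro a b hab
    apply Subgroup.closure_mono
    apply Set.image_mono
    intro i hi
    exact dvd_trans (pow_dvd_pow 2 hab) hi
  obtain ⟨n, hn⟩ := hw H hmono
  have h0 := hn n le_rfl
  have hfin : Finite (H n ⧸ (H (n + 1)).subgroupOf (H n)) :=
    Subgroup.index_ne_zero_iff_finite.mp h0
  let j : ℕ → ℕ := fun l => 2 ^ n * (2 * l + 1)
  have hjn : ∀ l, j l ∈ I n := fun l => Dvd.intro _ rfl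
  have hjn1 : ∀ l, j l ∉ I (n + 1) := by
    intro l hl
    have hl' : 2 ^ (n + 1) ∣ 2 ^ n * (2 * l + 1) := hl
    rw [pow_succ] at hl'
    have := Nat.dvd_of_mul_dvd_mul_left (by positivity) hl'
    omega
  have hjinj : Function.Injective j := by
    intro a b hab
    have hab' : 2 ^ n * (2 * a + 1) = 2 ^ n * (2 * b + 1) := hab
    have := Nat.eq_of_mul_eq_mul_left (by positivity) hab'
    omega
  have hmem : ∀ l, h (j l) ∈ H n := fun l => Subgroup.subset_closure ⟨j l, hjn l, rfl⟩
  let q : ℕ → (H n ⧸ (H (n + 1)).subgroupOf (H n)) := fun l => QuotientGroup.mk ⟨h (j l), hmem l⟩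
  obtain ⟨a, b, hab, hq⟩ := Finite.exists_ne_map_eq_of_infinite q
  have hq' : (⟨h (j a), hmem a⟩ : H n)⁻¹ * ⟨h (j b), hmem b⟩ ∈ (H (n + 1)).subgroupOf (H n) :=
    QuotientGroup.eq.mp hq
  rw [Subgroup.mem_subgroupOf] at hq'
  have hq2 : (h (j a))⁻¹ * h (j b) ∈ H (n + 1) := by simpa using hq'
  have hle : H (n + 1) ≤ Subgroup.closure (h '' {i | i ≠ j b}) := by
    apply Subgroup.closure_mono
    apply Set.image_mono
    intro i hi
    intro hib
    rw [hib] at hi
    exact hjn1 b hi
  have h1 : (h (j a))⁻¹ * h (j b) ∈ Subgroup.closure (h '' {i | i ≠ j b}) := hle hq2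
  have h2 : h (j a) ∈ Subgroup.closure (h '' {i | i ≠ j b}) :=
    Subgroup.subset_closure ⟨j a, fun e => hab (hjinj e), rfl⟩
  have h3 : h (j b) ∈ Subgroup.closure (h '' {i | i ≠ j b}) := by
    have := Subgroup.mul_mem _ h2 h1
    rwa [mul_inv_cancel_left] at this
  exact hind (j b) h3

end Pool.Agent.Helper38.WM
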