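import Pool.Agent.Helper38.WM.TopGen

set_option autoImplicit false

namespace Pool.Agent.Helper38.WM

/-- The group algebra of `S` over the field with `p` elements. -/
abbrev GA (p : ℕ) (S : Type*) [Group S] := MonoidAlgebra (ZMod p) S

/-- The group element `g` as an element of the group algebra. -/
noncomputable abbrev el (p : ℕ) {S : Type*} [Group S] (g : S) : GA p S :=
  MonoidAlgebra.of (ZMod p) S g

/-- The augmentation ideal, spanned by the elements `g - 1`. -/
noncomputable def Aug (p : ℕ) (S : Type*) [Group S] : Submodule (ZMod p) (GA p S) :=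
  Submodule.span (ZMod p) (Set.range fun g : S => el p g - 1)

/-- A multiplicative filtration of the group algebra by subspaces of finite codimension. -/
structure Filt (p : ℕ) (S : Type*) [Group S] where
  J : ℕ → Submodule (ZMod p) (GA p S)
  top : J 0 = ⊤
  anti : Antitone J
  mul : ∀ m l, J m * J l ≤ J (m + l)
  fin : ∀ n, Module.Finite (ZMod p) (GA p S ⧸ J n)

variable {p : ℕ} {S : Type*} [Group S]

theorem Filt.mul_mem (F : Filt p S) {m l : ℕ} {a b : GA p S} (ha : a ∈ F.J m) (hb : b ∈ F.J l) :
    a * b ∈ F.J (m + l) := F.mul m l (Submodule.mul_mem_mul ha hb)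

theorem Filt.mul_left (F : Filt p S) {l : ℕ} (a : GA p S) {b : GA p S} (hb : b ∈ F.J l) :
    a * b ∈ F.J l := by
  have := F.mul_mem (m := 0) (a := a) (by rw [F.top]; trivial) hb
  rwa [zero_add] at this

theorem Filt.mul_right (F : Filt p S) {l : ℕ} {a : GA p S} (ha : a ∈ F.J l) (b : GA p S) :
    a * b ∈ F.J l := by
  have := F.mul_mem (l := 0) (b := b) ha (by rw [F.top]; trivial)
  rwa [add_zero] at this

/-- The subgroup of the elements `g` with `g - 1` in the `n`-th term. -/
noncomputable def Filt.D (F : Filt p S) (n : ℕ) : Subgroup S where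
  carrier := {g | el p g - 1 ∈ F.J n}
  one_mem' := by
    show el p (1 : S) - 1 ∈ F.J n
    rw [el, map_one, sub_self]
    exact Submodule.zero_mem _
  mul_mem' := by
    intro a b ha hb
    show el p (a * b) - 1 ∈ F.J n
    have e : el p (a * b) - 1 = el p a * (el p b - 1) + (el p a - 1) := by
      rw [el, map_mul]; noncomm_ring
    rw [e]
    exact Submodule.add_mem _ (F.mul_left _ hb) ha
  inv_mem' := by
    intro a ha
    show el p a⁻¹ - 1 ∈ F.J n
    have e : el p a⁻¹ - 1 = -(el p a⁻¹ * (el p a - 1)) := by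
      have h : el p a⁻¹ * el p a = 1 := by
        rw [el, el, ← map_mul, inv_mul_cancel, map_one]
      rw [mul_sub, h, mul_one]; abel
    rw [e]
    exact Submodule.neg_mem _ (F.mul_left _ ha)

theorem Filt.mem_D (F : Filt p S) {n : ℕ} {g : S} : g ∈ F.D n ↔ el p g - 1 ∈ F.J n := Iff.rfl

theorem Filt.D_normal (F : Filt p S) (n : ℕ) : (F.D n).Normal := by
  constructor
  intro a ha g
  show el p (g * a * g⁻¹) - 1 ∈ F.J n
  have e : el p (g * a * g⁻¹) - 1 = el p g * (el p a - 1) * el p g⁻¹ := by
    have h : el p g * el p g⁻¹ = 1 := by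
      rw [el, el, ← map_mul, mul_inv_cancel, map_one]
    rw [mul_sub, sub_mul, mul_one, h, el, map_mul, map_mul]
  rw [e]
  exact F.mul_right (F.mul_left _ ha) _

theorem Filt.D_finiteIndex [Fact p.Prime] (F : Filt p S) (n : ℕ) : (F.D n).FiniteIndex := by
  have hfin : Finite (GA p S ⧸ F.J n) := by
    have := F.fin n
    exact Module.finite_of_finite (ZMod p)
  let φ : (S ⧸ F.D n) → (GA p S ⧸ F.J n) := Quotient.lift (fun g => (F.J n).mkQ (el p g)) (by
    intro a b hab
    have h : a⁻¹ * b ∈ F.D n := QuotientGroup.leftRel_apply.mp hab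
    have h1 : el p (a⁻¹ * b) - 1 ∈ F.J n := h
    have h2 := F.mul_left (el p a) h1
    have e : el p a * (el p (a⁻¹ * b) - 1) = el p b - el p a := by
      rw [mul_sub, mul_one, el, el, ← map_mul, mul_inv_cancel_left]
    rw [e] at h2
    rw [Submodule.mkQ_apply, Submodule.mkQ_apply, eq_comm]
    exact (Submodule.Quotient.eq _).mpr h2)
  have hφ : Function.Injective φ := by
    intro x y
    refine Quotient.inductionOn₂' x y ?_
    intro a b hab
    have hab' : (F.J n).mkQ (el p a) = (F.J n).mkQ (el p b) := hab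
    rw [Submodule.mkQ_apply, Submodule.mkQ_apply, eq_comm, Submodule.Quotient.eq] at hab'
    have h2 := F.mul_left (el p a⁻¹) hab'
    have e : el p a⁻¹ * (el p b - el p a) = el p (a⁻¹ * b) - 1 := by
      have h : el p a⁻¹ * el p a = 1 := by
        rw [el, el, ← map_mul, inv_mul_cancel, map_one]
      rw [mul_sub, h]; simp only [el, map_mul]
    rw [e] at h2
    exact Quotient.sound' (QuotientGroup.leftRel_apply.mpr h2)
  have : Finite (S ⧸ F.D n) := Finite.of_injective φ hφ
  exact Subgroup.finiteIndex_of_finite_quotient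

/-- Image of the span of a subgroup `V` in the `n`-th quotient. -/
noncomputable def Filt.P (F : Filt p S) (V : Subgroup S) (n : ℕ) :
    Submodule (ZMod p) (GA p S ⧸ F.J n) :=
  (Submodule.span (ZMod p) ((fun g : S => el p g) '' (V : Set S))).map (F.J n).mkQ

/-- Fox calculus on the group algebra of a free group. -/
structure Fox (p : ℕ) (X : Type) [Fintype X] [DecidableEq X] where
  ε : GA p (FreeGroup X) →ₐ[ZMod p] ZMod p
  d : X → GA p (FreeGroup X) →ₗ[ZMod p] GA p (FreeGroup X)
  eps_el : ∀ g, ε (el p g) = 1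
  decomp : ∀ f, f = algebraMap (ZMod p) _ (ε f) + ∑ x, (el p (FreeGroup.of x) - 1) * d x f
  leib : ∀ x f g, d x (f * g) = d x f * g + ε f • d x g
  d_of : ∀ x y, d x (el p (FreeGroup.of y) - 1) = if x = y then 1 else 0

variable {X : Type} [Fintype X] [DecidableEq X] {ι : Type}

/-- The elements `f` without constant term whose Fox derivatives lie in `I`. -/
noncomputable def Fox.K (F : Fox p X) (I : Submodule (ZMod p) (GA p (FreeGroup X))) :
    Submodule (ZMod p) (GA p (FreeGroup X)) :=
  LinearMap.ker F.ε.toLinearMap ⊓ ⨅ x, I.comap (F.d x)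

/-- The filtration belonging to the relators `r i`. -/
noncomputable def Fox.J (F : Fox p X) (r : ι → FreeGroup X) :
    ℕ → Submodule (ZMod p) (GA p (FreeGroup X))
  | 0 => ⊤
  | n + 1 => F.K (Fox.J F r n) ⊔
      ⨆ i, LinearMap.range (LinearMap.mulLeft (ZMod p) (el p (r i) - 1))

end Pool.Agent.Helper38.WM
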