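import Pool.Agent.Helper38.WM.Basic

set_option autoImplicit false

namespace Pool.Agent.Helper38.WM

/-- Invariant of the construction: the list is good and independent modulo the normal subgroup. -/
def Inv {S : Type*} [Group S] (P : List S → Prop) (s : List S × Subgroup S) : Prop :=
  P s.1 ∧ s.2.Normal ∧ s.2.FiniteIndex ∧
    ∀ (i : ℕ) (hi : i < s.1.length),
      s.1[i] ∉ Subgroup.closure {y | y ∈ s.1.eraseIdx i} ⊔ s.2

theorem inv_step {S : Type*} [Group S] (P : List S → Prop)
    (hext : ∀ l, P l → ∀ N : Subgroup S, N.Normal → N.FiniteIndex →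
      ∃ x ∈ N, P (x :: l) ∧ ∃ K : Subgroup S, K.Normal ∧ K.FiniteIndex ∧
        x ∉ Subgroup.closure {y | y ∈ l} ⊔ K)
    (s : List S × Subgroup S) (hs : Inv P s) :
    ∃ s' : List S × Subgroup S, Inv P s' ∧ ∃ x, s'.1 = x :: s.1 := by
  obtain ⟨hP, hN, hF, hI⟩ := hs
  obtain ⟨x, hxN, hPx, K, hK, hKF, hxK⟩ := hext s.1 hP s.2 hN hF
  refine ⟨(x :: s.1, s.2 ⊓ K), ⟨hPx, ?_, ?_, ?_⟩, x, rfl⟩
  · exact Subgroup.normal_inf_normal s.2 K
  · infer_instance
  · intro i hi
    cases i with
    | zero =>
      simp only [List.getElem_cons_zero, List.eraseIdx_cons_zero]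
      intro hx
      have hle : Subgroup.closure {y | y ∈ s.1} ⊔ (s.2 ⊓ K) ≤ Subgroup.closure {y | y ∈ s.1} ⊔ K :=
        sup_le_sup_left inf_le_right _
      exact hxK (hle hx)
    | succ i =>
      simp only [List.getElem_cons_succ, List.eraseIdx_cons_succ]
      have hi' : i < s.1.length := by simpa using hi
      intro hx
      apply hI i hi'
      have hle : Subgroup.closure {y | y ∈ x :: s.1.eraseIdx i} ⊔ (s.2 ⊓ K) ≤
          Subgroup.closure {y | y ∈ s.1.eraseIdx i} ⊔ s.2 := by
        refine sup_le ?_ (inf_le_left.trans le_sup_right)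
        rw [Subgroup.closure_le]
        intro y hy
        rcases List.mem_cons.mp hy with rfl | hy
        · exact (le_sup_right : s.2 ≤ Subgroup.closure {y | y ∈ s.1.eraseIdx i} ⊔ s.2) hxN
        · exact (le_sup_left : Subgroup.closure {y | y ∈ s.1.eraseIdx i} ≤
            Subgroup.closure {y | y ∈ s.1.eraseIdx i} ⊔ s.2) (Subgroup.subset_closure hy)
      exact hle hx

/-- Extension principle: if good lists can always be extended by an element of a given normal
subgroup of finite index which is outside the closure of the subgroup generated so far, then the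
weak minimum condition fails. -/
theorem not_weakMin_of_ext {S : Type*} [Group S] (P : List S → Prop) (hnil : P [])
    (hext : ∀ l, P l → ∀ N : Subgroup S, N.Normal → N.FiniteIndex →
      ∃ x ∈ N, P (x :: l) ∧ ∃ K : Subgroup S, K.Normal ∧ K.FiniteIndex ∧
        x ∉ Subgroup.closure {y | y ∈ l} ⊔ K) : ¬ WeakMin S := by
  classical
  have hstep := inv_step P hext
  let s0 : {s : List S × Subgroup S // Inv P s} := ⟨([], ⊤), hnil, inferInstance, inferInstance, by
    intro i hi; simp at hi⟩
  let nxt : {s : List S × Subgroup S // Inv P s} → {s : List S × Subgroup S // Inv P s} :=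
    fun s => ⟨(hstep s.1 s.2).choose, (hstep s.1 s.2).choose_spec.1⟩
  let hd : {s : List S × Subgroup S // Inv P s} → S := fun s => (hstep s.1 s.2).choose_spec.2.choose
  have hhd : ∀ s, (nxt s).1.1 = hd s :: s.1.1 := fun s => (hstep s.1 s.2).choose_spec.2.choose_spec
  let sq : ℕ → {s : List S × Subgroup S // Inv P s} := fun k => nxt^[k] s0
  have hsq : ∀ k, sq (k + 1) = nxt (sq k) := fun k => Function.iterate_succ_apply' nxt k s0
  let h : ℕ → S := fun k => hd (sq k)
  have hl : ∀ k, (sq k).1.1 = ((List.range k).map h).reverse := by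
    intro k
    induction k with
    | zero => rfl
    | succ k ih =>
      rw [hsq, hhd, ih, List.range_succ, List.map_append, List.reverse_append]
      rfl
  have hlen : ∀ k, (sq k).1.1.length = k := by
    intro k; rw [hl]; simp
  have hget : ∀ k i (hi : i < k) (hi' : k - 1 - i < (sq k).1.1.length),
      (sq k).1.1[k - 1 - i] = h i := by
    intro k i hi hi'
    have : (sq k).1.1[k - 1 - i]? = some (h i) := by
      rw [hl, List.getElem?_reverse (by simpa using (by omega : k - 1 - i < k))]
      simp only [List.length_map, List.length_range]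
      have e : k - 1 - (k - 1 - i) = i := by omega
      rw [e]
      simp [hi]
    rw [List.getElem?_eq_getElem hi'] at this
    exact Option.some.inj this
  apply not_weakMin_of_indep h
  intro i hi
  have hmono : ∀ {a b : ℕ}, a ≤ b → Subgroup.closure (h '' {j | j < a ∧ j ≠ i}) ≤
      Subgroup.closure (h '' {j | j < b ∧ j ≠ i}) := by
    intro a b hab
    apply Subgroup.closure_mono
    apply Set.image_mono
    intro j hj
    exact ⟨lt_of_lt_of_le hj.1 hab, hj.2⟩
  have key : ∀ x ∈ Subgroup.closure (h '' {j | j ≠ i}),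
      ∃ k, x ∈ Subgroup.closure (h '' {j | j < k ∧ j ≠ i}) := by
    intro x hx
    induction hx using Subgroup.closure_induction with
    | mem x hx =>
      obtain ⟨j, hj, rfl⟩ := hx
      exact ⟨j + 1, Subgroup.subset_closure ⟨j, ⟨Nat.lt_succ_self j, hj⟩, rfl⟩⟩
    | one => exact ⟨0, Subgroup.one_mem _⟩
    | mul x y hx hy ihx ihy =>
      obtain ⟨a, ha⟩ := ihx
      obtain ⟨b, hb⟩ := ihy
      refine ⟨max a b, Subgroup.mul_mem _ ?_ ?_⟩
      · exact hmono (le_max_left a b) ha
      · exact hmono (le_max_right a b) hb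
    | inv x hx ih =>
      obtain ⟨a, ha⟩ := ih
      exact ⟨a, Subgroup.inv_mem _ ha⟩
  obtain ⟨k₀, hk₀⟩ := key (h i) hi
  let k := max k₀ (i + 1)
  have hik : i < k := lt_of_lt_of_le (Nat.lt_succ_self i) (le_max_right k₀ (i + 1))
  have hk : h i ∈ Subgroup.closure (h '' {j | j < k ∧ j ≠ i}) :=
    hmono (le_max_left k₀ (i + 1)) hk₀
  have hi' : k - 1 - i < (sq k).1.1.length := by rw [hlen]; omega
  have hinv := (sq k).2.2.2.2 (k - 1 - i) hi'
  rw [hget k i hik hi'] at hinv
  apply hinv
  have hle : Subgroup.closure (h '' {j | j < k ∧ j ≠ i}) ≤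
      Subgroup.closure {y | y ∈ (sq k).1.1.eraseIdx (k - 1 - i)} := by
    apply Subgroup.closure_mono
    rintro _ ⟨j, ⟨hjk, hji⟩, rfl⟩
    have hj' : k - 1 - j < (sq k).1.1.length := by rw [hlen]; omega
    show h j ∈ (sq k).1.1.eraseIdx (k - 1 - i)
    rw [List.mem_eraseIdx_iff_getElem]
    exact ⟨k - 1 - j, hj', by omega, hget k j hjk hj'⟩
  exact (le_trans hle le_sup_left) hk

end Pool.Agent.Helper38.WM
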