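import Pool.Agent.Helper38.WM.St

/-!
# Project WM (MP_b731ff_al), weighted versions: generators `x` of degree `d x`, relators `r i` of degree `e i`

The unweighted versions (all `d x = 1`) are proved: `Helper88/WM/M_JFI.lean` (JFI), `Helper7/WM/M_GSI.lean` (GSI), `Helper36/WM/M_NUM.lean` (NUM),
TRF by helper67.  Copy and adapt: the changes are small (strong induction on `n`, `J (n + 1 - d x)` in place of `J n`).
-/

set_option autoImplicit false

namespace Pool.Agent.Helper38.WM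

variable {p : ℕ} {X : Type} [Fintype X] [DecidableEq X] {ι : Type}

/-- Weighted version of `Fox.K`. -/
noncomputable def Fox.Kw (F : Fox p X) (I : X → Submodule (ZMod p) (GA p (FreeGroup X))) :
    Submodule (ZMod p) (GA p (FreeGroup X)) :=
  LinearMap.ker F.ε.toLinearMap ⊓ ⨅ x, (I x).comap (F.d x)

/-- `J` is the sequence with degrees `d x` of the generators, belonging to the relators `r i`. -/
structure Fox.IsJ (F : Fox p X) (d : X → ℕ) (r : ι → FreeGroup X)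
    (J : ℕ → Submodule (ZMod p) (GA p (FreeGroup X))) : Prop where
  zero : J 0 = ⊤
  succ : ∀ n, J (n + 1) = F.Kw (fun x => J (n + 1 - d x)) ⊔
    ⨆ i, LinearMap.range (LinearMap.mulLeft (ZMod p) (el p (r i) - 1))

/-- Table for the recursion. -/
noncomputable def Fox.Jt (F : Fox p X) (d : X → ℕ) (r : ι → FreeGroup X) :
    ℕ → ℕ → Submodule (ZMod p) (GA p (FreeGroup X))
  | 0, _ => ⊤
  | _ + 1, 0 => ⊤
  | k + 1, n + 1 => F.Kw (fun x => Fox.Jt F d r k (n + 1 - d x)) ⊔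
      ⨆ i, LinearMap.range (LinearMap.mulLeft (ZMod p) (el p (r i) - 1))

theorem Fox.Jt_zero (F : Fox p X) (d : X → ℕ) (r : ι → FreeGroup X) (k : ℕ) :
    F.Jt d r k 0 = ⊤ := by
  cases k <;> rfl

theorem Fox.Jt_stable (F : Fox p X) (d : X → ℕ) (hd : ∀ x, 1 ≤ d x) (r : ι → FreeGroup X) :
    ∀ n k, n ≤ k → F.Jt d r k n = F.Jt d r n n := by
  intro n
  induction n using Nat.strong_induction_on with
  | _ n ih =>
    intro k hk
    cases n with
    | zero => rw [Fox.Jt_zero, Fox.Jt_zero]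
    | succ n =>
      obtain ⟨k, rfl⟩ : ∃ k', k = k' + 1 := ⟨k - 1, by omega⟩
      show F.Kw (fun x => Fox.Jt F d r k (n + 1 - d x)) ⊔ _ =
        F.Kw (fun x => Fox.Jt F d r n (n + 1 - d x)) ⊔ _
      have h : (fun x => Fox.Jt F d r k (n + 1 - d x)) = fun x => Fox.Jt F d r n (n + 1 - d x) := by
        funext x
        have := hd x
        rw [ih (n + 1 - d x) (by omega) k (by omega), ih (n + 1 - d x) (by omega) n (by omega)]
      rw [h]

theorem Fox.exists_isJ (F : Fox p X) (d : X → ℕ) (hd : ∀ x, 1 ≤ d x) (r : ι → FreeGroup X) :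
    ∃ J, F.IsJ d r J := by
  refine ⟨fun n => F.Jt d r n n, F.Jt_zero d r 0, fun n => ?_⟩
  show F.Kw (fun x => Fox.Jt F d r n (n + 1 - d x)) ⊔ _ =
    F.Kw (fun x => Fox.Jt F d r (n + 1 - d x) (n + 1 - d x)) ⊔ _
  have h : (fun x => Fox.Jt F d r n (n + 1 - d x)) =
      fun x => Fox.Jt F d r (n + 1 - d x) (n + 1 - d x) := by
    funext x
    have := hd x
    exact F.Jt_stable d hd r (n + 1 - d x) n (by omega)
  rw [h]

/-- **WM MODULE JFW.**  Weighted version of JFI (adapt `Helper88/WM/M_JFI.lean`).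
PROOF.  As for JFI with strong induction on `n` in every step; write `K (n+1) = Φ.Kw (fun x => J (n + 1 - d x))`, so `f ∈ K (n+1)` iff `ε f = 0` and `d x f ∈ J (n + 1 - d x)` for all `x`.
(i) `J (n+1) ≤ J n` by strong induction (`n + 2 - d x ≤ (n + 1 - d x) + 1` with `n + 1 - d x ≤ n`).  (ii) Right ideals.  (iii) `f ∈ J (n + 1 - d x) → (x - 1) * f ∈ K (n+1) ≤ J (n+1)`.
(iv) `f ∈ J n → el x⁻¹ * f ∈ J n`, strong induction.  For `g ∈ J (n + 1 - d y)`: `el x⁻¹ * ((y - 1) * g) ∈ K (n+1)`, as `ε = 0` and `d z (..) = - δ_zx el x⁻¹ * ((y - 1) * g) + δ_zy g`; for `z = x`: `(y - 1) * g ∈ J (n+1) ≤ J (n + 1 - d x)` by (iii), (i), and the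
induction hypothesis for `n + 1 - d x ≤ n` applies; for `z = y`: `g ∈ J (n + 1 - d y)`.  Now as in JFI.  (v) Left ideals.  (vi) `J m * J l ≤ J (m + l)` by strong induction on `m`: for `a ∈ K (m+1)`, `a * b = ∑ (x - 1) * (d x a * b)`,
`d x a * b ∈ J (m + 1 - d x + l) ≤ J (m + l + 1 - d x)` (antitone), (iii).  (vii) Finite: strong induction, `K (n+1)` is the kernel of `f ↦ (ε f, (d x f mod J (n + 1 - d x))_x)`. -/
def StJFW : Prop := ∀ (p : ℕ) [Fact p.Prime] (X : Type) [Fintype X] [DecidableEq X] (Φ : Fox p X)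
  (ι : Type) (r : ι → FreeGroup X) (d : X → ℕ) (J : ℕ → Submodule (ZMod p) (GA p (FreeGroup X))),
  (∀ x, 1 ≤ d x) → Φ.IsJ d r J → ∃ F : Filt p (FreeGroup X), F.J = J

/-- **WM MODULE GSW.**  Weighted version of GSI (adapt `Helper7/WM/M_GSI.lean`).
PROOF.  As for GSI, `K = Φ.Kw (fun x => F.J (n + 1 - d x))`.  (1) `finrank (A ⧸ K) = 1 + ∑ x, finrank (A ⧸ F.J (n + 1 - d x))` (`Psi` into `ZMod p × (∀ x, A ⧸ F.J (n + 1 - d x))`).  (2) is a hypothesis now.  (3) For every `i` the map `u ↦ ρ i * u mod K`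
kills `J (n + 1 - e i)`: `d x (ρ i * u) = d x (ρ i) * u ∈ J (e i - d x + (n + 1 - e i)) ≤ J (n + 1 - d x)` (`omega` and antitone).  For `e i ≥ n + 1`, `i ∉ I`, `J (n + 1 - e i) = ⊤`.  (4) as before. -/
def StGSW : Prop := ∀ (p : ℕ) [Fact p.Prime] (X : Type) [Fintype X] [DecidableEq X] (Φ : Fox p X)
  (ι : Type) (r : ι → FreeGroup X) (d : X → ℕ) (e : ι → ℕ) (F : Filt p (FreeGroup X)),
  Φ.IsJ d r F.J → (∀ x, 1 ≤ d x) → (∀ i, 1 ≤ e i) →
  (∀ i x, Φ.d x (el p (r i) - 1) ∈ F.J (e i - d x)) →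
  ∀ (n : ℕ) (I : Finset ι), (∀ i, e i ≤ n → i ∈ I) →
  1 + ∑ x, Module.finrank (ZMod p) (GA p (FreeGroup X) ⧸ F.J (n + 1 - d x)) ≤
    Module.finrank (ZMod p) (GA p (FreeGroup X) ⧸ F.J (n + 1)) +
      ∑ i ∈ I, Module.finrank (ZMod p) (GA p (FreeGroup X) ⧸ F.J (n + 1 - e i))

/-- **WM MODULE NUW.**  Weighted version of NUM (adapt `Helper36/WM/M_NUM.lean`).
PROOF.  `c = ∑' i, t ^ e i`, `S = ∑ n ∈ range (N+1), b n * t ^ n`.  Multiply the inequality for `n` by `t ^ (n+1)` and sum over `n < N`: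
`t + ∑_x ∑_{n<N} b (n + 1 - d x) t^(n+1) ≤ S + c * S` (right side as in NUM).  For every `x`: `t ^ d x * S ≤ ∑_{n<N} b (n + 1 - d x) t^(n+1) + d x * b N * t ^ (N+1)`: `t ^ d x * S = ∑_{m ≤ N} b m t^(m + d x)`; the terms with
`m + d x ≤ N` occur in the sum (`n = m + d x - 1`, injective); there are at most `d x` other `m ≤ N`, each with `b m ≤ b N`, `t ^ (m + d x) ≤ t ^ (N+1)`.  So with `D = ∑ x, d x`: `t + (∑ x, t ^ d x - 1 - c) * S ≤ D * b N * t ^ (N+1)`, hence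
`t ≤ D * t * (b N * t ^ N)`. -/
def StNUW : Prop := ∀ (X : Type) [Fintype X] (ι : Type) (e : ι → ℕ) (d : X → ℕ) (t : ℝ) (b : ℕ → ℕ),
  0 < t → t < 1 → (∀ x, 1 ≤ d x) → (∀ i, 1 ≤ e i) →
  Summable (fun i => t ^ e i) → 1 - ∑ x, t ^ d x + ∑' i, t ^ e i < 0 → b 0 = 0 → Monotone b →
  (∀ (n : ℕ) (I : Finset ι), (∀ i, i ∈ I ↔ e i ≤ n) →
    1 + ∑ x, b (n + 1 - d x) ≤ b (n + 1) + ∑ i ∈ I, b (n + 1 - e i)) →
  ∀ N, 1 ≤ N → 1 / (∑ x, (d x : ℝ)) ≤ b N * t ^ N

/-- **WM MODULE TRW.**  Weighted version of TRF (adapt TRF of helper67): transfer of the filtration to the presented group.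
PROOF.  `A = GA p (FreeGroup X)`, `G` the presented group, `π : A →ₐ GA p G` (`MonoidAlgebra.mapDomainAlgHom` of `PresentedGroup.mk`), surjective.
(1) `ker π ≤ F.J n`: `F.D n` is normal and contains the `r i`, so it contains the normal closure, the kernel of `FreeGroup X → G`.  Let `s : G → FreeGroup X` be a section.  For `f ∈ ker π`,
`f = ∑ f(g) (el g - el (s (π g))) + ∑ f(g) el (s (π g))`; the second sum is the image of `π f = 0` under the linear map `el x ↦ el (s x)`; `el g - el h = (el (g h⁻¹) - 1) el h ∈ F.J n` for `g h⁻¹ ∈ F.D n`.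
(2) `F'.J n = (F.J n).map π`: `F'.J 0 = ⊤` (surjective), antitone (`Submodule.map_mono`), `mul` (`Submodule.map_mul`).  (3) `mkQ ∘ π : A → GA p G ⧸ F'.J n` is surjective with kernel `comap π (map π (F.J n)) = F.J n ⊔ ker π = F.J n`
(`Submodule.comap_map_eq`); `LinearMap.quotKerEquivOfSurjective` gives `fin` and the equality. -/
def StTRW : Prop := ∀ (p : ℕ) [Fact p.Prime] (X : Type) [Fintype X] [DecidableEq X] (ι : Type)
  (r : ι → FreeGroup X) (F : Filt p (FreeGroup X)), (∀ n i, el p (r i) - 1 ∈ F.J n) →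
  ∃ F' : Filt p (PresentedGroup (Set.range r)), ∀ n,
    Module.finrank (ZMod p) (GA p (PresentedGroup (Set.range r)) ⧸ F'.J n) =
      Module.finrank (ZMod p) (GA p (FreeGroup X) ⧸ F.J n)

end Pool.Agent.Helper38.WM
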