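import Pool.Agent.Helper38.WM.Growth
import Pool.Agent.Helper38.WM.St2

set_option autoImplicit false

namespace Pool.Agent.Helper38.WM

/-- `g - 1` lies in the `e`-th term of every multiplicative filtration of the group algebra in
which `x - 1` has degree at least `d x` for every free generator `x`. -/
def DegGE (p : ℕ) {X : Type} (d : X → ℕ) (g : FreeGroup X) (e : ℕ) : Prop :=
  ∀ J : ℕ → Submodule (ZMod p) (GA p (FreeGroup X)), J 0 = ⊤ → Antitone J →
    (∀ m l, J m * J l ≤ J (m + l)) → (∀ x, el p (FreeGroup.of x) - 1 ∈ J (d x)) →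
    el p g - 1 ∈ J e

variable {p : ℕ} [Fact p.Prime] {X : Type} [Fintype X] [DecidableEq X] {ι : Type}

theorem mem_Kw (Φ : Fox p X) (I : X → Submodule (ZMod p) (GA p (FreeGroup X)))
    (f : GA p (FreeGroup X)) : f ∈ Φ.Kw I ↔ Φ.ε f = 0 ∧ ∀ x, Φ.d x f ∈ I x := by
  unfold Fox.Kw
  rw [Submodule.mem_inf, LinearMap.mem_ker, Submodule.mem_iInf]
  rfl

theorem Kw_mono (Φ : Fox p X) {I I' : X → Submodule (ZMod p) (GA p (FreeGroup X))}
    (h : ∀ x, I x ≤ I' x) : Φ.Kw I ≤ Φ.Kw I' := by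
  intro f hf
  rw [mem_Kw] at hf ⊢
  exact ⟨hf.1, fun x => h x (hf.2 x)⟩

theorem eps_sub (Φ : Fox p X) (g : FreeGroup X) : Φ.ε (el p g - 1) = 0 := by
  rw [map_sub, Φ.eps_el, map_one, sub_self]

/-- The filtration without relators is contained in the one with relators. -/
theorem isJ_le (Φ : Fox p X) (d : X → ℕ) (hd : ∀ x, 1 ≤ d x) (r : ι → FreeGroup X)
    (r₀ : Empty → FreeGroup X)
    {M J : ℕ → Submodule (ZMod p) (GA p (FreeGroup X))} (hM : Φ.IsJ d r₀ M) (hJ : Φ.IsJ d r J) :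
    ∀ n, M n ≤ J n := by
  intro n
  induction n using Nat.strong_induction_on with
  | _ n ih =>
    cases n with
    | zero => rw [hJ.zero]; exact le_top
    | succ n =>
      rw [hM.succ, hJ.succ]
      refine sup_le ?_ ?_
      · refine le_trans (Kw_mono Φ fun x => ?_) le_sup_left
        have := hd x
        exact ih _ (by omega)
      · rw [iSup_of_empty]
        exact bot_le

theorem gen_mem (Φ : Fox p X) (d : X → ℕ) (hd : ∀ x, 1 ≤ d x) (r₀ : ι → FreeGroup X)
    {M : ℕ → Submodule (ZMod p) (GA p (FreeGroup X))} (hM : Φ.IsJ d r₀ M) (x : X) :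
    el p (FreeGroup.of x) - 1 ∈ M (d x) := by
  have h1 := hd x
  obtain ⟨n, hn⟩ : ∃ n, d x = n + 1 := ⟨d x - 1, by omega⟩
  rw [hn, hM.succ]
  refine Submodule.mem_sup_left ?_
  rw [mem_Kw]
  refine ⟨eps_sub Φ _, fun y => ?_⟩
  rw [Φ.d_of]
  split_ifs with h
  · subst h
    have : n + 1 - d y = 0 := by omega
    rw [this, hM.zero]
    exact Submodule.mem_top
  · exact Submodule.zero_mem _

theorem rel_mem (Φ : Fox p X) (d : X → ℕ) (r : ι → FreeGroup X)
    {J : ℕ → Submodule (ZMod p) (GA p (FreeGroup X))} (hJ : Φ.IsJ d r J) (n : ℕ) (i : ι) :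
    el p (r i) - 1 ∈ J n := by
  cases n with
  | zero => rw [hJ.zero]; exact Submodule.mem_top
  | succ n =>
    rw [hJ.succ]
    refine Submodule.mem_sup_right (Submodule.mem_iSup_of_mem i ?_)
    exact ⟨1, by rw [LinearMap.mulLeft_apply, mul_one]⟩

theorem finrank_mono (F : Filt p (FreeGroup X)) :
    Monotone fun n => Module.finrank (ZMod p) (GA p (FreeGroup X) ⧸ F.J n) := by
  intro m n hmn
  have := F.fin n
  exact LinearMap.finrank_le_finrank_of_surjective (f := Submodule.factor (F.anti hmn))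
    (Submodule.factor_surjective (F.anti hmn))

/-- No group with a presentation of positive weighted deficiency has the weak minimum condition. -/
theorem not_weakMin_of_posDef (hIDX : StIDX) (hREC : StREC) (hFOX : StFOX) (hJFW : StJFW)
    (hGSW : StGSW) (hNUW : StNUW) (hTRW : StTRW)
    (r : ι → FreeGroup X) (d : X → ℕ) (e : ι → ℕ) (t : ℝ) (ht0 : 0 < t) (ht1 : t < 1)
    (hd : ∀ x, 1 ≤ d x) (he : ∀ i, 1 ≤ e i) (hr : ∀ i, DegGE p d (r i) (e i))
    (hsum : Summable fun i => t ^ e i) (hneg : 1 - ∑ x, t ^ d x + ∑' i, t ^ e i < 0) :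
    ¬ WeakMin (PresentedGroup (Set.range r)) := by
  intro hw
  obtain ⟨Φ⟩ := hFOX p X
  let r₀ : Empty → FreeGroup X := fun i => i.elim
  obtain ⟨M, hM⟩ := Φ.exists_isJ d hd r₀
  obtain ⟨J, hJ⟩ := Φ.exists_isJ d hd r
  obtain ⟨FM, hFM⟩ := hJFW p X Φ Empty r₀ d M hd hM
  obtain ⟨F, hF⟩ := hJFW p X Φ ι r d J hd hJ
  have hMJ := isJ_le Φ d hd r r₀ hM hJ
  have hdr : ∀ i x, Φ.d x (el p (r i) - 1) ∈ F.J (e i - d x) := by
    intro i x
    have h1 : el p (r i) - 1 ∈ M (e i) := by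
      refine hr i M hM.zero ?_ ?_ (gen_mem Φ d hd r₀ hM)
      · rw [← hFM]; exact FM.anti
      · rw [← hFM]; exact FM.mul
    have h2 := he i
    obtain ⟨n, hn⟩ : ∃ n, e i = n + 1 := ⟨e i - 1, by omega⟩
    rw [hn, hM.succ, iSup_of_empty, sup_bot_eq, mem_Kw] at h1
    rw [hF, hn]
    exact hMJ _ (h1.2 x)
  obtain ⟨F', hF'⟩ := hTRW p X ι r F (fun n i => by rw [hF]; exact rel_mem Φ d r hJ n i)
  set b : ℕ → ℕ := fun n => Module.finrank (ZMod p) (GA p (FreeGroup X) ⧸ F.J n) with hb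
  have hJF : Φ.IsJ d r F.J := by rw [hF]; exact hJ
  have hb0 : b 0 = 0 := by
    have h : Subsingleton (GA p (FreeGroup X) ⧸ F.J 0) := by
      rw [F.top]
      exact Submodule.Quotient.subsingleton_iff.mpr rfl
    exact Module.finrank_zero_of_subsingleton
  have hnum := hNUW X ι e d t b ht0 ht1 hd he hsum hneg hb0 (finrank_mono F)
    (fun n I hI => hGSW p X Φ ι r d e F hJF hd he hdr n I fun i hi => (hI i).mpr hi)
  have hD : 0 < ∑ x, (d x : ℝ) := by
    have hne : Nonempty X := by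
      by_contra hX
      rw [not_nonempty_iff] at hX
      rw [Finset.univ_eq_empty, Finset.sum_empty] at hneg
      have : 0 ≤ ∑' i, t ^ e i := tsum_nonneg fun i => (pow_pos ht0 _).le
      linarith
    refine Finset.sum_pos (fun x _ => ?_) Finset.univ_nonempty
    have := hd x
    exact_mod_cast this
  obtain ⟨q, hq1, hqt⟩ := exists_between ((one_lt_div ht0).mpr ht1)
  have hqt1 : q * t < 1 := by rwa [lt_div_iff₀ ht0] at hqt
  have hqt0 : 0 < q * t := by positivity
  have hg := growth_of_weakMin hIDX hREC F' hw q hq1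
  have hlim : ∀ᶠ n in Filter.atTop, (q * t) ^ n < 1 / ∑ x, (d x : ℝ) :=
    (tendsto_pow_atTop_nhds_zero_of_lt_one hqt0.le hqt1).eventually
      (gt_mem_nhds (by positivity))
  obtain ⟨N, ⟨h1, h2⟩, h3⟩ := ((hg.and hlim).and (Filter.eventually_ge_atTop 1)).exists
  have h4 := hnum N h3
  rw [hF'] at h1
  have h5 : (b N : ℝ) * t ^ N < q ^ N * t ^ N := mul_lt_mul_of_pos_right h1 (pow_pos ht0 N)
  rw [← mul_pow] at h5
  linarith

end Pool.Agent.Helper38.WM
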