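import Pool.Agent.Helper38.WM.St

set_option autoImplicit false

namespace Pool.Agent.Helper38.WM

theorem num_growth (w : List ℕ) (Q : ℝ) (hQ : 1 < Q)
    (hsum : (w.map fun m => (1 / Q) ^ m).sum ≤ 1 / 2) (f : ℕ → ℕ) (h0 : f 0 = 0)
    (hw : ∀ m ∈ w, 1 ≤ m)
    (hf : ∀ n, f n ≤ 1 + (w.map fun m => f (n - m)).sum) : ∀ n, (f n : ℝ) ≤ 2 * Q ^ n := by
  have hQ0 : 0 < Q := by linarith
  intro n
  induction n using Nat.strong_induction_on with
  | _ n ih =>
    rcases Nat.eq_zero_or_pos n with rfl | hn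
    · rw [h0]; simp
    · have h1 : ∀ m ∈ w, (f (n - m) : ℝ) ≤ 2 * Q ^ n * (1 / Q) ^ m := by
        intro m hm
        have hm1 := hw m hm
        rcases le_or_gt m n with hmn | hmn
        · have h2 := ih (n - m) (by omega)
          have h3 : Q ^ n * (1 / Q) ^ m = Q ^ (n - m) := by
            have : Q ^ n = Q ^ (n - m) * Q ^ m := by rw [← pow_add]; congr 1; omega
            rw [this, one_div, inv_pow, mul_assoc, mul_inv_cancel₀ (pow_ne_zero _ hQ0.ne'), mul_one]
          calc (f (n - m) : ℝ) ≤ 2 * Q ^ (n - m) := h2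
            _ = 2 * Q ^ n * (1 / Q) ^ m := by rw [mul_assoc, h3]
        · have : n - m = 0 := by omega
          rw [this, h0, Nat.cast_zero]
          positivity
      have h4 : ((w.map fun m => f (n - m)).sum : ℝ) ≤
          2 * Q ^ n * (w.map fun m => (1 / Q) ^ m).sum := by
        have key : ∀ (w : List ℕ), (∀ m ∈ w, (f (n - m) : ℝ) ≤ 2 * Q ^ n * (1 / Q) ^ m) →
            ((w.map fun m => f (n - m)).sum : ℝ) ≤ 2 * Q ^ n * (w.map fun m => (1 / Q) ^ m).sum := by
          intro w
          induction w with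
          | nil => intro _; simp
          | cons a w ihw =>
            intro h
            have ha := h a List.mem_cons_self
            have hw' := ihw fun m hm => h m (List.mem_cons_of_mem a hm)
            simp only [List.map_cons, List.sum_cons]
            push_cast
            rw [mul_add]
            push_cast at hw'
            linarith
        exact key w h1
      have h5 : (f n : ℝ) ≤ 1 + ((w.map fun m => f (n - m)).sum : ℝ) := by
        have := hf n
        exact_mod_cast this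
      have h6 : (1 : ℝ) ≤ Q ^ n := one_le_pow₀ hQ.le
      have h7 : 2 * Q ^ n * (w.map fun m => (1 / Q) ^ m).sum ≤ 2 * Q ^ n * (1 / 2) :=
        mul_le_mul_of_nonneg_left hsum (by positivity)
      linarith

theorem Filt.finrank_P_zero {p : ℕ} [Fact p.Prime] {S : Type} [Group S] (F : Filt p S)
    (V : Subgroup S) : Module.finrank (ZMod p) (F.P V 0) = 0 := by
  have h : Subsingleton (GA p S ⧸ F.J 0) := by
    rw [F.top]
    exact Submodule.Quotient.subsingleton_iff.mpr rfl
  exact Module.finrank_zero_of_subsingleton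

/-- Growth theorem: subexponential growth of every filtration of the group algebra. -/
theorem growth_of_weakMin (hIDX : StIDX) (hREC : StREC) {p : ℕ} [Fact p.Prime] {S : Type} [Group S]
    (F : Filt p S) (hS : WeakMin S) (q : ℝ) (hq : 1 < q) :
    ∀ᶠ n in Filter.atTop, (Module.finrank (ZMod p) (GA p S ⧸ F.J n) : ℝ) < q ^ n := by
  by_contra hcon
  rw [Filter.not_eventually] at hcon
  obtain ⟨Q, hQ1, hQq⟩ := exists_between hq
  have hQ0 : 0 < Q := by linarith
  refine not_weakMin_of_ext (fun l => ∃ w : List (S × ℕ), w.map Prod.fst = l ∧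
    (∀ x ∈ w, el p x.1 - 1 ∈ F.J x.2 ∧ 1 ≤ x.2) ∧ (w.map fun x => (1 / Q) ^ x.2).sum < 1 / 2)
    ⟨[], rfl, by simp, by norm_num⟩ ?_ hS
  rintro l ⟨w, rfl, hw, hsum⟩ N hN hNF
  obtain ⟨m', hm'⟩ := exists_pow_lt_of_lt_one (sub_pos.mpr hsum)
    (by rw [div_lt_one hQ0]; exact hQ1 : 1 / Q < 1)
  have hm : (1 / Q) ^ (m' + 1) < 1 / 2 - (w.map fun x => (1 / Q) ^ x.2).sum := by
    refine lt_of_le_of_lt ?_ hm'
    apply pow_le_pow_of_le_one (by positivity) (by rw [div_le_one hQ0]; exact hQ1.le)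
    omega
  have hDn := F.D_normal (m' + 1)
  have hDF := F.D_finiteIndex (m' + 1)
  have hNF2 : (N ⊓ F.D (m' + 1)).FiniteIndex := inferInstance
  by_contra hno
  push Not at hno
  have hall : ∀ K : Subgroup S, K.Normal → K.FiniteIndex →
      N ⊓ F.D (m' + 1) ≤ Subgroup.closure {y | y ∈ w.map Prod.fst} ⊔ K := by
    intro K hK hKF x hx
    refine hno x hx.1 ⟨(x, m' + 1) :: w, rfl, ?_, ?_⟩ K hK hKF
    · intro y hy
      rcases List.mem_cons.mp hy with rfl | hy
      · exact ⟨hx.2, by simp⟩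
      · exact hw y hy
    · rw [List.map_cons, List.sum_cons]
      show (1 / Q) ^ (m' + 1) + _ < 1 / 2
      linarith
  set V := Subgroup.closure {y | y ∈ w.map Prod.fst} with hV
  set C := (N ⊓ F.D (m' + 1)).index with hC
  have hg : ∀ n, (Module.finrank (ZMod p) (F.P V n) : ℝ) ≤ 2 * Q ^ n := by
    apply num_growth (w.map Prod.snd) Q hQ1
    · rw [List.map_map]
      exact hsum.le
    · exact F.finrank_P_zero V
    · intro m hm
      obtain ⟨x, hx, rfl⟩ := List.mem_map.mp hm
      exact (hw x hx).2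
    · intro n
      rw [List.map_map]
      exact hREC p S F w (fun x hx => (hw x hx).1) n
  have hb : ∀ n, (Module.finrank (ZMod p) (GA p S ⧸ F.J n) : ℝ) ≤ C * (2 * Q ^ n) := by
    intro n
    have h1 := hIDX p S F V n
    have h2 : (V ⊔ F.D n).index ≤ C :=
      index_le_of_le (hall (F.D n) (F.D_normal n) (F.D_finiteIndex n)) hNF2
    have h3 : Module.finrank (ZMod p) (GA p S ⧸ F.J n) ≤ C * Module.finrank (ZMod p) (F.P V n) :=
      h1.trans (Nat.mul_le_mul_right _ h2)
    calc (Module.finrank (ZMod p) (GA p S ⧸ F.J n) : ℝ) ≤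
        ((C * Module.finrank (ZMod p) (F.P V n) : ℕ) : ℝ) := by exact_mod_cast h3
      _ = C * (Module.finrank (ZMod p) (F.P V n) : ℝ) := by push_cast; ring
      _ ≤ C * (2 * Q ^ n) := mul_le_mul_of_nonneg_left (hg n) (Nat.cast_nonneg _)
  have hqQ : 1 < q / Q := by rw [one_lt_div hQ0]; exact hQq
  have hev : ∀ᶠ n in Filter.atTop, ((C : ℝ) * 2) < (q / Q) ^ n :=
    (tendsto_pow_atTop_atTop_of_one_lt hqQ).eventually_gt_atTop _
  obtain ⟨n, hn, hn2⟩ := (hcon.and_eventually hev).exists
  apply hn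
  calc (Module.finrank (ZMod p) (GA p S ⧸ F.J n) : ℝ) ≤ C * (2 * Q ^ n) := hb n
    _ = (C * 2) * Q ^ n := by ring
    _ < (q / Q) ^ n * Q ^ n := mul_lt_mul_of_pos_right hn2 (by positivity)
    _ = q ^ n := by rw [div_pow, div_mul_cancel₀ _ (pow_ne_zero _ hQ0.ne')]

end Pool.Agent.Helper38.WM
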