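import Pool.Agent.Helper38.WM.Fin

set_option autoImplicit false

namespace Pool.Agent.Helper38.WM

/-- part (1), with finite sets -/
theorem main1 {S : Type} [Group S] (hS : WeakMin S)
    (hinf : ∀ n : ℕ, ∃ K : Subgroup S, K.Normal ∧ K.FiniteIndex ∧ n < K.index) :
    ∃ k : ℕ, ∀ n : ℕ, ∃ (N : Subgroup S) (T : Finset S), N.FiniteIndex ∧ n < N.index ∧
      T.card ≤ k ∧ (T : Set S) ⊆ N ∧
      ∀ K : Subgroup S, K.Normal → K.FiniteIndex → N ≤ Subgroup.closure (T : Set S) ⊔ K := by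
  classical
  obtain ⟨k, hk⟩ := topGen_of_weakMin hS hinf
  refine ⟨k, fun n => ?_⟩
  obtain ⟨N, l, hN, hn, hl, hlN, hK⟩ := hk n
  refine ⟨N, l.toFinset, hN, hn, (List.toFinset_card_le l).trans hl, ?_, ?_⟩
  · intro x hx
    exact hlN x (by simpa using hx)
  · intro K hKn hKF
    have := hK K hKn hKF
    have e : ((l.toFinset : Finset S) : Set S) = {y | y ∈ l} := by
      ext y; simp
    rw [e]
    exact this

/-- part (2) for arbitrary multiplicative filtrations -/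
theorem main2 (hIDX : StIDX) (hREC : StREC) {S : Type} [Group S] (hS : WeakMin S) (p : ℕ)
    (hp : p.Prime) (J : ℕ → Submodule (ZMod p) (GA p S)) (h0 : J 0 = ⊤) (hJ : Antitone J)
    (hmul : ∀ m l, J m * J l ≤ J (m + l)) (hfin : ∀ n, Module.Finite (ZMod p) (GA p S ⧸ J n))
    (q : ℝ) (hq : 1 < q) :
    ∀ᶠ n in Filter.atTop, (Module.finrank (ZMod p) (GA p S ⧸ J n) : ℝ) < q ^ n := by
  have : Fact p.Prime := ⟨hp⟩
  exact growth_of_weakMin hIDX hREC (⟨J, h0, hJ, hmul, hfin⟩ : Filt p S) hS q hq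

/-- part (2) for the powers of the augmentation ideal -/
theorem main2' (hIDX : StIDX) (hREC : StREC) (hAUG : StAUG) {S : Type} [Group S] (hS : WeakMin S)
    (hFG : Group.FG S) (p : ℕ) (hp : p.Prime) (q : ℝ) (hq : 1 < q) :
    ∀ᶠ n in Filter.atTop, Module.Finite (ZMod p) (GA p S ⧸ Aug p S ^ n) ∧
      (Module.finrank (ZMod p) (GA p S ⧸ Aug p S ^ n) : ℝ) < q ^ n := by
  have : Fact p.Prime := ⟨hp⟩
  obtain ⟨F, hF⟩ := hAUG p S hFG
  filter_upwards [growth_of_weakMin hIDX hREC F hS q hq, Filter.eventually_ge_atTop 1] with n h1 h2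
  have h3 := F.fin n
  rw [hF n h2] at h1 h3
  exact ⟨h3, h1⟩

/-- part (3) -/
theorem main3 (hIDX : StIDX) (hREC : StREC) (hFOX : StFOX) (hJFW : StJFW)
    (hGSW : StGSW) (hNUW : StNUW) (hTRW : StTRW) {S : Type} [Group S] (hS : WeakMin S) (p : ℕ)
    (hp : p.Prime) (X ι : Type) [Fintype X] (r : ι → FreeGroup X) (d : X → ℕ) (e : ι → ℕ) (t : ℝ)
    (ht0 : 0 < t) (ht1 : t < 1)
    (hd : ∀ x, 1 ≤ d x) (he : ∀ i, 1 ≤ e i) (hr : ∀ i, DegGE p d (r i) (e i))
    (hsum : Summable fun i => t ^ e i) (hneg : 1 - ∑ x, t ^ d x + ∑' i, t ^ e i < 0)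
    (f : S →* PresentedGroup (Set.range r)) : ¬ Function.Surjective f := by
  classical
  have : Fact p.Prime := ⟨hp⟩
  intro hf
  exact not_weakMin_of_posDef hIDX hREC hFOX hJFW hGSW hNUW hTRW r d e t ht0 ht1 hd he hr hsum hneg
    (hS.quotient f hf)

end Pool.Agent.Helper38.WM
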