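import Pool.Agent.Helper38.WM.Defs

/-!
# Project WM (MP_b731ff_al): groups with the weak minimum condition have no Golod-Shafarevich sections

Everything is elementary.  `GA p S` is the group algebra over `ZMod p`, `el p g` the group element, `Aug p S` the augmentation ideal (as a
`ZMod p`-submodule; powers of submodules of an algebra), `Filt p S` a multiplicative filtration with `J 0 = ⊤`, `F.D n` the normal subgroup
of finite index of all `g` with `g - 1 ∈ J n`, `F.P V n` the image of the span of `V` in `GA p S ⧸ J n`.  `Filt.mul_mem`, `mul_left`,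
`mul_right` (in `Defs`): the `J n` are two-sided ideals.
-/

set_option autoImplicit false

namespace Pool.Agent.Helper38.WM

/-- **WM MODULE IDX.**  `dim GA / J n ≤ |S : V D_n| * dim (image of the span of V)`.
PROOF.  `U = V ⊔ F.D n`, `Finite (S ⧸ U)` (`F.D_finiteIndex`, `Subgroup.finiteIndex_of_le`), `Fintype.ofFinite`; `t : S ⧸ U → S` = `Quotient.out`.
Left multiplication by `el p (t c)` maps `J n` into `J n` (`F.mul_left`), so it induces `L c : GA ⧸ J n →ₗ GA ⧸ J n` (`Submodule.mapQ`).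
`Φ : (S ⧸ U → F.P V n) →ₗ GA ⧸ J n`, `Φ f = ∑ c, L c (f c)`.  `Φ` is surjective: the classes of the `el p g` span (`MonoidAlgebra.induction_on` or
`Submodule.span_eq_top`), and for `c = g U` one has `g = t c * u`, `u ∈ U`, `u = v * x`, `v ∈ V`, `x ∈ F.D n` (`Subgroup.mem_sup_of_normal_right`);
`el p g - el p (t c) * el p v = el p (t c * v) * (el p x - 1) ∈ J n`, so the class of `el p g` is `L c (class of el p v)`.
`LinearMap.finrank_le_finrank_of_surjective` and `Module.finrank_pi_fintype` give the claim. -/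
def StIDX : Prop := ∀ (p : ℕ) [Fact p.Prime] (S : Type) [Group S] (F : Filt p S) (V : Subgroup S) (n : ℕ),
  Module.finrank (ZMod p) (GA p S ⧸ F.J n) ≤ (V ⊔ F.D n).index * Module.finrank (ZMod p) (F.P V n)

/-- **WM MODULE REC.**  Recursion for the subgroup generated by elements of known depth.
PROOF.  `V = closure`.  For `h` with `el p h - 1 ∈ J m` let `Q h := (span (el p '' V)).map ((F.J n).mkQ ∘ₗ LinearMap.mulLeft (el p h - 1))`.
(1) `finrank (Q h) ≤ finrank (F.P V (n - m))`: multiplication by `el p h - 1` maps `J (n - m)` into `J (m + (n - m)) ≤ J n` (`F.mul_mem`, `F.anti`), so it induces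
`M : GA ⧸ J (n - m) →ₗ GA ⧸ J n` and `Q h = (F.P V (n - m)).map M`; `Submodule.finrank_map_le` (`F.fin`).
(2) Let `R := w.foldr (fun q acc => Q q.1 ⊔ acc) (span {class of 1})`.  By induction on `w` (`Submodule.finrank_add_le_finrank_add_finrank`)
`finrank R ≤ 1 + (w.map ..).sum`, and `Q q.1 ≤ R` for `q ∈ w`.
(3) `F.P V n ≤ R`: it suffices that the class of `el p v` is in `R` for all `v ∈ V`; `Subgroup.closure_induction_left`: `el p (h * y) = el p y + (el p h - 1) * el p y`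
and `el p (h⁻¹ * y) = el p y - (el p h - 1) * el p (h⁻¹ * y)`; `Submodule.finrank_mono`. -/
def StREC : Prop := ∀ (p : ℕ) [Fact p.Prime] (S : Type) [Group S] (F : Filt p S) (w : List (S × ℕ)),
  (∀ q ∈ w, el p q.1 - 1 ∈ F.J q.2) → ∀ n : ℕ,
  Module.finrank (ZMod p) (F.P (Subgroup.closure {y | y ∈ w.map Prod.fst}) n) ≤
    1 + (w.map fun q => Module.finrank (ZMod p)
      (F.P (Subgroup.closure {y | y ∈ w.map Prod.fst}) (n - q.2))).sum

/-- **WM MODULE AUG.**  For a finitely generated group the powers of the augmentation ideal form a filtration.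
PROOF.  `A = GA p S`, `Δ = Aug p S`; submodules of the algebra `A` form an idempotent semiring (`Submodule.mul`, `1 = span {1}`, `⊔ = +`).
`⊤ * Δ ≤ Δ`, `Δ * ⊤ ≤ Δ`: `⊤` is spanned by the `el p g`; `g (h - 1) = (gh - 1) - (g - 1)`, same on the right.  `⊤ ≤ 1 ⊔ Δ`: `g = 1 + (g - 1)`.
Let `s` be a finite generating set (`Group.FG`), `Y = span {el p x - 1 | x ∈ s}`.  `Δ ≤ ⊤ * Y`: for all `g ∈ closure s = ⊤`: `el p g - 1 ∈ ⊤ * Y` by
`Subgroup.closure_induction_right`-type induction: `g x - 1 = g (x - 1) + (g - 1)`, `g x⁻¹ - 1 = - g x⁻¹ (x - 1) + (g - 1)`.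
Define `W 0 = 1` (this is for `Δ ^ 1`), `W (n+1) = 1 ⊔ W n * Y`: finitely generated (`Submodule.FG.mul`, `Submodule.FG.sup`, `fg_span`, `fg_one`), and `⊤ ≤ W n ⊔ Δ ^ (n+1)`:
`⊤ = 1 ⊔ Δ ≤ 1 ⊔ ⊤ * Y ≤ 1 ⊔ (W n ⊔ Δ ^ (n+1)) * Y ≤ W (n+1) ⊔ Δ ^ (n+1) * Δ` (`Y ≤ Δ`).  So `A ⧸ Δ ^ (n+1)` is finite (image of `W n` under `mkQ` is `⊤`).
`J n = if n = 0 then ⊤ else Δ ^ n`: `J m * J l ≤ J (m + l)` from `pow_add` and `⊤ * Δ ^ l ≤ Δ ^ l`, `Δ ^ m * ⊤ ≤ Δ ^ m`; antitone from `Δ ^ (n+1) = Δ ^ n * Δ ≤ Δ ^ n * ⊤ ≤ Δ ^ n`. -/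
def StAUG : Prop := ∀ (p : ℕ) [Fact p.Prime] (S : Type) [Group S], Group.FG S →
  ∃ F : Filt p S, ∀ n, 1 ≤ n → F.J n = Aug p S ^ n

/-- **WM MODULE FOX.**  Fox calculus exists.
PROOF.  `A = GA p (FreeGroup X)`.  `ε = MonoidAlgebra.lift` of the trivial character.  For `x : X` let `Mx : FreeGroup X →* (Matrix (Fin 2) (Fin 2) A)ˣ` be
`FreeGroup.lift` of `y ↦ !![el y, 0; δ_xy, 1]` with inverse `!![el y⁻¹, 0; - δ_xy • el y⁻¹, 1]`, `Φx : A →ₐ Matrix (Fin 2) (Fin 2) A` its extension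
(`MonoidAlgebra.lift`, `Units.coeHom`).  By linearity and induction `Φx f = !![f, 0; *, algebraMap (ε f)]`; define `d x f = Φx f 1 0` (linear in `f`).  `Φx (f * g) = Φx f * Φx g` gives
`leib`.  `d_of`: `d x (el y) = δ_xy`, `d x 1 = 0`.  `decomp`: both sides are linear, so let `f = el p g`; the set of `g` with
`el g = 1 + ∑ x, (el x - 1) * d x (el g)` is closed under products: `el g * el h = (1 + ∑ (el x - 1) * d x g) * h = h + ∑ (el x - 1) * d x g * h
= 1 + ∑ (el x - 1) * (d x h + d x g * h)`, contains the generators (`d_of`) and is closed under inverses (`d x (g⁻¹) = - d x g * g⁻¹`, from `leib` for `g * g⁻¹`); use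
`FreeGroup.induction_on`. -/
def StFOX : Prop := ∀ (p : ℕ) [Fact p.Prime] (X : Type) [Fintype X] [DecidableEq X], Nonempty (Fox p X)

/-- **WM MODULE JFI.**  The sequence `Fox.J` is a filtration (this gives a term of `Filt` with `F.J = Fox.J`).
PROOF.  Write `x - 1` for `el p (FreeGroup.of x) - 1`, `ρ i = el p (r i) - 1`, `J n = Φ.J r n`, `K n = Φ.K (J n)` (so `J (n+1) = K n ⊔ ⨆ range (ρ i * ·)`); `ε (ρ i) = 0`, `d x (algebraMap c) = 0`
(`leib` for `1 * 1`).  (i) Antitone: `J (n+1) ≤ J n` by induction (`K` is monotone).  (ii) Right ideals: `f ∈ J n → f * g ∈ J n` by induction (`d x (f * g) = d x f * g` if `ε f = 0`).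
(iii) `f ∈ J n → (x - 1) * f ∈ K n ≤ J (n+1)` (`d y ((x - 1) * f) = δ_xy f`).  (iv) `f ∈ J n → el x⁻¹ * f ∈ J n`, by induction on `n`; let it hold for `n`.  For `g ∈ J n`: `el x⁻¹ * ((y - 1) * g) ∈ K n`, as
`ε = 0` and `d z (el x⁻¹ * (y - 1) * g) = - δ_zx el x⁻¹ * (y - 1) * g + δ_zy g` (`d z (el x⁻¹) = - δ_zx el x⁻¹`), which is in `J n` by (iii), (i) and the induction hypothesis.  Now let `f ∈ J (n+1)`: `f ∈ K n` is
`∑ y, (y - 1) * d y f` with `d y f ∈ J n`: done.  `f = ρ i * u`: `el x⁻¹ * f = f - el x⁻¹ * ((x - 1) * f)` and `f ∈ J (n+1) ≤ J n`: done.  (v) So `J n` is a left ideal: `el x * f = (x - 1) * f + f`, so it is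
stable under all group elements (`FreeGroup.induction_on` or closure) and by linearity under `⊤`.  (vi) `J m * J l ≤ J (m + l)` by induction on `m`: `m = 0` is (v); for `a = ∑ (x - 1) * d x a`, `d x a ∈ J m`: `a * b = ∑ (x - 1) * (d x a * b)`, (iii);
for `a = ρ i * u` clear (`l + m + 1 ≥ 1`).  (vii) Finite: `K n` is the kernel of `f ↦ (ε f, (d x f mod J n)_x)` into `ZMod p × (X → A ⧸ J n)`, finite by induction; `A ⧸ J (n+1)` is a quotient of `A ⧸ K n`. -/
def StJFI : Prop := ∀ (p : ℕ) [Fact p.Prime] (X : Type) [Fintype X] [DecidableEq X] (Φ : Fox p X)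
  (ι : Type) (r : ι → FreeGroup X), ∃ F : Filt p (FreeGroup X), ∀ n, F.J n = Φ.J r n

/-- **WM MODULE GSI.**  The Golod-Shafarevich inequality.
PROOF.  `b n = finrank (A ⧸ J n)`, `J = Φ.J r = F.J`, `K n = Φ.K (J n)`.  (1) `finrank (A ⧸ K n) = 1 + |X| b n`: the map `f ↦ (ε f, (d x f mod J n)_x)` into `ZMod p × (X → A ⧸ J n)` has kernel `K n` and is surjective:
`(c, (u x mod J n))` is the image of `algebraMap c + ∑ x, (x - 1) * u x` (`d y (algebraMap c) = 0` by `leib` for `1 * 1`; `ε (x - 1) = 0`; `leib`, `d_of`).  `Module.finrank_prod`, `Module.finrank_pi_fintype`,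
`LinearMap.quotKerEquivOfSurjective`.  (2) `d x (ρ i) ∈ J (e i - 1)`, `ρ i = el p (r i) - 1`: `f ∈ Aug ^ (m+1) → d x f ∈ J m`: `m = 0` trivial; in general `Aug ^ (m+1) = Aug * Aug ^ m`, `d x (u * v) = d x u * v` for `ε u = 0` and
`Aug ^ m ≤ J m` (`Aug ≤ J 1` as `ε (el g - 1) = 0`, then `F.mul`).  (3) For `i` with `e i ≤ n`: the map `u ↦ ρ i * u mod K n` kills `J (n + 1 - e i)` (`d x (ρ i * u) = d x (ρ i) * u ∈ J (e i - 1 + (n + 1 - e i)) = J n`), so its range has finrank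
`≤ b (n + 1 - e i)`.  For `e i ≥ n + 1`: `ρ i * u ∈ K n`.  (4) `J (n+1) / K n` (image of `J (n+1)` in `A ⧸ K n`) is the sup over `i ∈ I` of these ranges, so its finrank is `≤ ∑ i ∈ I, b (n + 1 - e i)`, and
`finrank (A ⧸ K n) = finrank (A ⧸ J (n+1)) + finrank (J (n+1) / K n)` (`Submodule.finrank_quotient_add_finrank`, `Submodule.quotientQuotientEquivQuotient`). -/
def StGSI : Prop := ∀ (p : ℕ) [Fact p.Prime] (X : Type) [Fintype X] [DecidableEq X] (Φ : Fox p X)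
  (ι : Type) (r : ι → FreeGroup X) (e : ι → ℕ) (F : Filt p (FreeGroup X)), (∀ n, F.J n = Φ.J r n) →
  (∀ i, 1 ≤ e i) → (∀ i, el p (r i) - 1 ∈ Aug p (FreeGroup X) ^ e i) →
  ∀ (n : ℕ) (I : Finset ι), (∀ i, e i ≤ n → i ∈ I) →
  1 + Fintype.card X * Module.finrank (ZMod p) (GA p (FreeGroup X) ⧸ F.J n) ≤
    Module.finrank (ZMod p) (GA p (FreeGroup X) ⧸ F.J (n + 1)) +
      ∑ i ∈ I, Module.finrank (ZMod p) (GA p (FreeGroup X) ⧸ F.J (n + 1 - e i))

/-- **WM MODULE NUM.**  Numerical consequence of the Golod-Shafarevich inequality.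
PROOF.  `I n = {i | e i ≤ n}` is finite (summability: terms `t ^ e i ≥ t ^ n`).  `S N = ∑ n ∈ range (N+1), b n * t ^ n`, `c = ∑' i, t ^ e i`.  Multiply the inequality for `n` by `t ^ (n+1)` and sum over `n < N`:
`∑_{n < N} b (n+1) t^(n+1) = S N` (`b 0 = 0`); `∑_{n<N} t^(n+1) ≥ t` (`N ≥ 1`); `d ∑_{n<N} b n t^(n+1) = d t (S N - b N t^N)`; and
`∑_{n<N} ∑_{i, e i ≤ n} b (n+1-e i) t^(n+1) = ∑_i t^(e i) ∑_{n<N, e i ≤ n} b (n+1-e i) t^(n+1-e i) ≤ c * S N` (finite sums over `i ∈ I N`).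
So `t + d t (S N - b N t^N) ≤ S N + c * S N`, i.e. `d t b N t^N ≥ t + (d t - 1 - c) S N ≥ t`, `b N * t ^ N ≥ 1 / d`. -/
def StNUM : Prop := ∀ (ι : Type) (e : ι → ℕ) (d : ℕ) (t : ℝ) (b : ℕ → ℕ), 0 < t → t < 1 → (∀ i, 1 ≤ e i) →
  Summable (fun i => t ^ e i) → 1 - d * t + ∑' i, t ^ e i < 0 → b 0 = 0 →
  (∀ (n : ℕ) (I : Finset ι), (∀ i, i ∈ I ↔ e i ≤ n) → 1 + d * b n ≤ b (n + 1) + ∑ i ∈ I, b (n + 1 - e i)) →
  ∀ N, 1 ≤ N → 1 / (d : ℝ) ≤ b N * t ^ N

/-- **WM MODULE TRF.**  Transfer to the presented group.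
PROOF.  `A = GA p (FreeGroup X)`, `G` the presented group, `π : A →ₐ GA p G` (`MonoidAlgebra.mapDomainAlgHom` of `PresentedGroup.mk`), surjective.  `C = (Aug p G ^ n).comap π`.
(1) `ker π ≤ F.J n`: `N = {g | el g - 1 ∈ F.J n} = F.D n` is normal and contains the `r i` (`h1`), so it contains the normal closure, the kernel of `FreeGroup X → G`.  Let `s : G → FreeGroup X` be a section.  For `f ∈ ker π`,
`f = ∑ f(g) (el g - el (s (π g))) + ∑ f(g) el (s (π g))`; the second sum is the image of `π f = 0` under the linear map `el x ↦ el (s x)`; `el g - el h = (el (g h⁻¹) - 1) el h ∈ F.J n` for `g h⁻¹ ∈ F.D n`.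
(2) `π (Aug ^ n) = (Aug p G) ^ n` (`Submodule.map_pow`, `Submodule.map_span`), and `Aug p (FreeGroup X) ^ n ≤ F.J n` (`h2` and `F.mul`, `n ≥ 1`).  So `C ≤ ker π ⊔ Aug ^ n ≤ F.J n`.
(3) `A ⧸ C ≃ GA p G ⧸ Aug p G ^ n`, and `A ⧸ F.J n` is a quotient of `A ⧸ C`; `GA p G ⧸ Aug p G ^ n` is finite (hypothesis). -/
def StTRF : Prop := ∀ (p : ℕ) [Fact p.Prime] (X : Type) [Fintype X] [DecidableEq X] (ι : Type)
  (r : ι → FreeGroup X) (F : Filt p (FreeGroup X)) (n : ℕ), 1 ≤ n → (∀ i, el p (r i) - 1 ∈ F.J n) →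
  Aug p (FreeGroup X) ≤ F.J 1 →
  Module.Finite (ZMod p) (GA p (PresentedGroup (Set.range r)) ⧸ Aug p (PresentedGroup (Set.range r)) ^ n) →
  Module.finrank (ZMod p) (GA p (FreeGroup X) ⧸ F.J n) ≤
    Module.finrank (ZMod p) (GA p (PresentedGroup (Set.range r)) ⧸ Aug p (PresentedGroup (Set.range r)) ^ n)

end Pool.Agent.Helper38.WM
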