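import Pool.Agent.Helper38.WM.Ext

set_option autoImplicit false

namespace Pool.Agent.Helper38.WM

theorem index_le_of_le {S : Type*} [Group S] {A B : Subgroup S} (h : A ≤ B) (hA : A.FiniteIndex) :
    B.index ≤ A.index :=
  Nat.le_of_dvd (Nat.pos_of_ne_zero hA.index_ne_zero) (Subgroup.index_dvd_of_le h)

theorem le_of_index_le {S : Type*} [Group S] {A B : Subgroup S} (h : A ≤ B) (hA : A.FiniteIndex)
    (hi : A.index ≤ B.index) : B ≤ A := by
  have e := Subgroup.relIndex_mul_index h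
  have hB : B.FiniteIndex := Subgroup.finiteIndex_of_le h
  have hpos : 0 < B.index := Nat.pos_of_ne_zero hB.index_ne_zero
  have hApos : 0 < A.index := Nat.pos_of_ne_zero hA.index_ne_zero
  have h1 : A.relIndex B = 1 := by
    have h2 : A.relIndex B ≠ 0 := by
      intro h0
      rw [h0, zero_mul] at e
      omega
    have h3 : A.relIndex B * B.index ≤ 1 * B.index := by rw [e, one_mul]; exact hi
    have h4 := Nat.le_of_mul_le_mul_right h3 hpos
    omega
  exact Subgroup.relIndex_eq_one.mp h1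

/-- In a group with the weak minimum condition and finite quotients of unbounded order there are
subgroups of finite index of unbounded index that are topologically generated by a bounded number
of elements. -/
theorem topGen_of_weakMin {S : Type*} [Group S] (hS : WeakMin S)
    (hinf : ∀ n : ℕ, ∃ K : Subgroup S, K.Normal ∧ K.FiniteIndex ∧ n < K.index) :
    ∃ k : ℕ, ∀ n : ℕ, ∃ (N : Subgroup S) (l : List S), N.FiniteIndex ∧ n < N.index ∧
      l.length ≤ k ∧ (∀ x ∈ l, x ∈ N) ∧
      ∀ K : Subgroup S, K.Normal → K.FiniteIndex → N ≤ Subgroup.closure {y | y ∈ l} ⊔ K := by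
  by_contra hcon
  push Not at hcon
  choose β hβ using hcon
  refine not_weakMin_of_ext (fun l => ∀ n : ℕ, ∃ K : Subgroup S, K.Normal ∧ K.FiniteIndex ∧
    n < (Subgroup.closure {y | y ∈ l} ⊔ K).index) ?_ ?_ hS
  · intro n
    obtain ⟨K, hK, hF, hn⟩ := hinf n
    refine ⟨K, hK, hF, ?_⟩
    have : Subgroup.closure {y : S | y ∈ ([] : List S)} = ⊥ := by simp
    rw [this, bot_sup_eq]
    exact hn
  · intro l hl N hN hNF
    obtain ⟨K₁, hK₁, hK₁F, hβ₁⟩ := hl (β (l.length + 1))
    have hN₂ : (N ⊓ K₁).Normal := Subgroup.normal_inf_normal N K₁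
    have hN₂F : (N ⊓ K₁).FiniteIndex := inferInstance
    obtain ⟨K₂, hK₂, hK₂F, hi₂⟩ := hl (N ⊓ K₁).index
    have hex : ∃ x ∈ N ⊓ K₁, x ∉ Subgroup.closure {y | y ∈ l} ⊔ K₂ := by
      by_contra hno
      push Not at hno
      have := index_le_of_le (A := N ⊓ K₁) (B := Subgroup.closure {y | y ∈ l} ⊔ K₂) hno hN₂F
      omega
    obtain ⟨x, hx, hxK⟩ := hex
    refine ⟨x, hx.1, ?_, K₂, hK₂, hK₂F, hxK⟩
    by_contra hnb
    push Not at hnb
    obtain ⟨n₀, hn₀⟩ := hnb
    let T : Set ℕ := {m | ∃ K : Subgroup S, K.Normal ∧ K.FiniteIndex ∧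
      (Subgroup.closure {y | y ∈ x :: l} ⊔ K).index = m}
    have hTne : T.Nonempty := ⟨_, ⊤, inferInstance, inferInstance, rfl⟩
    have hTb : BddAbove T := ⟨n₀, by
      rintro m ⟨K, hK, hF, rfl⟩
      exact hn₀ K hK hF⟩
    obtain ⟨Ks, hKs, hKsF, hmax⟩ := Nat.sSup_mem hTne hTb
    let U : Subgroup S := Subgroup.closure {y | y ∈ x :: l} ⊔ Ks
    have hUF : U.FiniteIndex := Subgroup.finiteIndex_of_le (le_sup_right : Ks ≤ U)
    have hUK : ∀ K : Subgroup S, K.Normal → K.FiniteIndex →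
        U ≤ Subgroup.closure {y | y ∈ x :: l} ⊔ K := by
      intro K hK hKF
      have hn : (Ks ⊓ K).Normal := Subgroup.normal_inf_normal Ks K
      have hle : Subgroup.closure {y | y ∈ x :: l} ⊔ (Ks ⊓ K) ≤ U := sup_le_sup_left inf_le_left _
      have hf : (Subgroup.closure {y | y ∈ x :: l} ⊔ (Ks ⊓ K)).FiniteIndex :=
        Subgroup.finiteIndex_of_le (le_sup_right : Ks ⊓ K ≤ _)
      have hle2 : (Subgroup.closure {y | y ∈ x :: l} ⊔ (Ks ⊓ K)).index ≤ U.index := by
        show _ ≤ (Subgroup.closure {y | y ∈ x :: l} ⊔ Ks).index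
        rw [hmax]
        exact le_csSup hTb ⟨Ks ⊓ K, hn, inferInstance, rfl⟩
      exact (le_of_index_le hle hf hle2).trans (sup_le_sup_left inf_le_right _)
    have hxl : ∀ y ∈ x :: l, y ∈ U := fun y hy =>
      (le_sup_left : Subgroup.closure {y | y ∈ x :: l} ≤ U) (Subgroup.subset_closure hy)
    have hUi : U.index ≤ β (l.length + 1) := by
      by_contra hlt
      push Not at hlt
      obtain ⟨K, hK, hKF, hnot⟩ := hβ (l.length + 1) U (x :: l) hUF hlt (by simp) hxl
      exact hnot (hUK K hK hKF)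
    have hUle : U ≤ Subgroup.closure {y | y ∈ l} ⊔ K₁ := by
      refine (hUK K₁ hK₁ hK₁F).trans (sup_le ?_ le_sup_right)
      rw [Subgroup.closure_le]
      intro y hy
      rcases List.mem_cons.mp hy with rfl | hy
      · exact (le_sup_right : K₁ ≤ Subgroup.closure {y | y ∈ l} ⊔ K₁) hx.2
      · exact (le_sup_left : Subgroup.closure {y | y ∈ l} ≤
          Subgroup.closure {y | y ∈ l} ⊔ K₁) (Subgroup.subset_closure hy)
    have := index_le_of_le hUle hUF
    omega

end Pool.Agent.Helper38.WM
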